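import Mathlib

set_option autoImplicit false

namespace Pool.Agent.Results.MP_f10132_gt.NonSpatial
open Set TopologicalSpace

universe u

/-- Filters on a lattice. -/
def IsFilt {L : Type} [Order.Frame L] (F : Set L) : Prop :=
  F.Nonempty ∧ IsUpperSet F ∧ ∀ a ∈ F, ∀ b ∈ F, ∃ c ∈ F, c ≤ a ∧ c ≤ b

/-- Scott-open subsets. -/
def ScottOpen {L : Type} [Order.Frame L] (U : Set L) : Prop :=
  IsUpperSet U ∧ ∀ D : Set L, D.Nonempty → DirectedOn (· ≤ ·) D → sSup D ∈ U → ∃ d ∈ D, d ∈ U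

/-- Temperate frames. -/
def Temperate (L : Type) [Order.Frame L] : Prop :=
  (∀ F G : Set L, IsFilt F → ScottOpen F → IsFilt G → ScottOpen G →
    ScottOpen {w | ∃ a ∈ F, ∃ b ∈ G, w = a ⊓ b}) ∧ ScottOpen ({⊤} : Set L)

theorem exists_prime {L : Type} [Order.Frame L] {F : Set L} (h1 : IsFilt F) (h2 : ScottOpen F)
    {x : L} (hx : x ∉ F) : ∃ m, m ∉ F ∧ ∀ a b, a ⊓ b ≤ m → a ≤ m ∨ b ≤ m := by
  obtain ⟨m, -, hm⟩ := zorn_le_nonempty₀ Fᶜ (fun c hc hch y hy =>
    ⟨sSup c, fun h => by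
      obtain ⟨d, hd, hdF⟩ := h2.2 c ⟨y, hy⟩ hch.directedOn h
      exact hc hd hdF, fun z hz => le_sSup hz⟩) x hx
  refine ⟨m, hm.prop, fun a b hab => ?_⟩
  by_contra hn
  push Not at hn
  have k : ∀ z, ¬ z ≤ m → m ⊔ z ∈ F := fun z hz => by
    by_contra h
    exact hz (le_sup_right.trans (hm.le_of_ge h le_sup_left))
  obtain ⟨c, hc, hca, hcb⟩ := h1.2.2 _ (k a hn.1) _ (k b hn.2)
  refine hm.prop (h1.2.1 ((le_inf hca hcb).trans ?_) hc)
  rw [← sup_inf_left]
  exact sup_le le_rfl hab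

structure T : Type where
  l : List Bool

instance : Preorder T where
  le a b := b.l <+: a.l
  le_refl a := List.prefix_refl _
  le_trans _ _ _ h1 h2 := List.IsPrefix.trans h2 h1

def root : T := ⟨[]⟩

theorem le_root (t : T) : t ≤ root := List.nil_prefix

def jf (U : LowerSet T) : LowerSet T :=
  ⟨{t | (t = root → root ∈ U) ∧ ∀ s ≤ t, ∃ v ≤ s, v ∈ U}, by
    rintro a b hba ⟨h1, h2⟩
    refine ⟨fun e => h1 ?_, fun s hs => h2 s (hs.trans hba)⟩
    subst e
    obtain ⟨l⟩ := a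
    have : l = [] := List.prefix_nil.1 hba
    rw [this]; rfl⟩

def j : Nucleus (LowerSet T) where
  toFun := jf
  map_inf' U V := by
    ext t
    constructor
    · rintro ⟨h1, h2⟩
      exact ⟨⟨fun e => (h1 e).1, fun s hs => (h2 s hs).imp fun v hv => ⟨hv.1, hv.2.1⟩⟩,
        ⟨fun e => (h1 e).2, fun s hs => (h2 s hs).imp fun v hv => ⟨hv.1, hv.2.2⟩⟩⟩
    · rintro ⟨⟨h1, h2⟩, h3, h4⟩
      refine ⟨fun e => ⟨h1 e, h3 e⟩, fun s hs => ?_⟩
      obtain ⟨v, hv, hvU⟩ := h2 s hs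
      obtain ⟨w, hw, hwV⟩ := h4 v (hv.trans hs)
      exact ⟨w, hw.trans hv, U.lower hw hvU, hwV⟩
  idempotent' U := by
    rintro t ⟨h1, h2⟩
    refine ⟨fun e => (h1 e).1 rfl, fun s hs => ?_⟩
    obtain ⟨v, hv, hvU⟩ := h2 s hs
    obtain ⟨w, hw, hwU⟩ := hvU.2 v le_rfl
    exact ⟨w, hw.trans hv, hwU⟩
  le_apply' U := fun t ht => ⟨fun e => e ▸ ht, fun s hs => ⟨s, le_rfl, U.lower hs ht⟩⟩

abbrev L : Type := range j

theorem fix (a : L) : j a.1 = a.1 := Nucleus.mem_range.1 a.2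

theorem eq_top {a : L} (h : root ∈ a.1) : a = ⊤ :=
  top_le_iff.1 fun t _ => a.1.lower (le_root t) h

theorem root_top : root ∈ (⊤ : L).1 :=
  (le_top : j.restrict ⊤ ≤ (⊤ : L)) (j.le_apply (x := ⊤) (by trivial))

def ch (s : T) (c : Bool) : T := ⟨s.l ++ [c]⟩

theorem ch_le (s : T) (c : Bool) : ch s c ≤ s := List.prefix_append _ _

theorem ch_disj {s v : T} (h1 : v ≤ ch s true) (h2 : v ≤ ch s false) : False := by
  have := List.prefix_of_prefix_length_le h1 h2 (by simp [ch])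
  have h3 := List.IsPrefix.eq_of_length this (by simp [ch])
  simp [ch] at h3

theorem prime_big {m : L} (h : ∀ a b, a ⊓ b ≤ m → a ≤ m ∨ b ≤ m) {t : T} (ht : t ≠ root) :
    t ∈ m.1 := by
  rw [← fix m]
  refine ⟨fun e => absurd e ht, fun s _ => ?_⟩
  have h0 : LowerSet.Iic (ch s true) ⊓ LowerSet.Iic (ch s false) ≤ m.1 :=
    fun v hv => (ch_disj hv.1 hv.2).elim
  rcases h (j.restrict (LowerSet.Iic (ch s true))) (j.restrict (LowerSet.Iic (ch s false))) (by
    rw [← map_inf]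
    exact j.giRestrict.gc.l_le h0) with h1 | h1
  · exact ⟨_, ch_le s true, j.giRestrict.gc.le_u h1 (le_refl (ch s true))⟩
  · exact ⟨_, ch_le s false, j.giRestrict.gc.le_u h1 (le_refl (ch s false))⟩

theorem classify {F : Set L} (h1 : IsFilt F) (h2 : ScottOpen F) : F = {⊤} ∨ F = univ := by
  by_cases hb : ⊥ ∈ F
  · exact Or.inr (eq_univ_of_forall fun a => h1.2.1 bot_le hb)
  · obtain ⟨m, hm, hp⟩ := exists_prime h1 h2 hb
    obtain ⟨x, hx⟩ := h1.1
    refine Or.inl (eq_singleton_iff_unique_mem.2 ⟨h1.2.1 le_top hx, fun a ha => eq_top ?_⟩)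
    by_contra hr
    exact hm (h1.2.1 (fun t ht => prime_big hp fun e => hr (e ▸ ht)) ha)

theorem scott_top : ScottOpen ({⊤} : Set L) := by
  refine ⟨fun a b hab ha => top_le_iff.1 (ha ▸ hab), fun D _ _ hD => ?_⟩
  by_contra hn
  push Not at hn
  have h1 : sSup D ≤ j.restrict (sSup (Subtype.val '' D)) :=
    sSup_le fun d hd => (le_sSup (mem_image_of_mem Subtype.val hd)).trans j.le_apply
  rw [show sSup D = ⊤ from hD] at h1
  have h2 := (h1 root_top).1 rfl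
  obtain ⟨_, ⟨d, hd, rfl⟩, h3⟩ := LowerSet.mem_sSup_iff.1 h2
  exact hn d hd (eq_top h3)

theorem temperate : Temperate L := by
  refine ⟨fun F G h1 h2 h3 h4 => ?_, scott_top⟩
  have hu : ScottOpen (univ : Set L) := ⟨isUpperSet_univ, fun D ⟨d, hd⟩ _ _ => ⟨d, hd, trivial⟩⟩
  rcases classify h1 h2 with rfl | rfl <;> rcases classify h3 h4 with rfl | rfl
  · have : {w : L | ∃ a ∈ ({⊤} : Set L), ∃ b ∈ ({⊤} : Set L), w = a ⊓ b} = {⊤} := by ext; simp
    rw [this]; exact scott_top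
  · have : {w : L | ∃ a ∈ ({⊤} : Set L), ∃ b ∈ (univ : Set L), w = a ⊓ b} = univ :=
      eq_univ_of_forall fun w => ⟨⊤, rfl, w, trivial, (top_inf_eq w).symm⟩
    rw [this]; exact hu
  · have : {w : L | ∃ a ∈ (univ : Set L), ∃ b ∈ ({⊤} : Set L), w = a ⊓ b} = univ := by ext; simp
    rw [this]; exact hu
  · have : {w : L | ∃ a ∈ (univ : Set L), ∃ b ∈ (univ : Set L), w = a ⊓ b} = univ :=
      eq_univ_of_forall fun w => ⟨w, trivial, w, trivial, (inf_idem w).symm⟩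
    rw [this]; exact hu

theorem result : ∃ (L : Type) (_ : Order.Frame L), Temperate L ∧
    ∀ (X : Type u) [TopologicalSpace X], IsEmpty (L ≃o Opens X) := by
  refine ⟨L, inferInstance, temperate, fun X _ => ⟨fun e => ?_⟩⟩
  let c : L := j.restrict (LowerSet.Iic (ch root true))
  have hc1 : c ≠ ⊥ := fun h => by
    have h1 : c ≤ j.restrict ⊥ := h ▸ bot_le
    obtain ⟨v, -, hv⟩ := (h1 (j.le_apply (x := LowerSet.Iic (ch root true))
      (le_refl (ch root true)))).2 _ le_rfl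
    exact hv
  have hc2 : c ≠ ⊤ := fun h => by
    have h1 : root ∈ c.1 := h ▸ root_top
    have h2 : root ≤ ch root true := h1.1 rfl
    have : ([] ++ [true] : List Bool) = [] := List.prefix_nil.1 h2
    simp at this
  have hx : ∃ x, x ∈ e c := by
    by_contra hn
    push Not at hn
    exact hc1 (e.injective (by rw [e.map_bot]; exact le_bot_iff.1 fun x hx => (hn x hx).elim))
  obtain ⟨x, hx⟩ := hx
  rcases classify (F := {a | x ∈ e a}) ⟨⟨c, hx⟩, fun a b hab ha => e.monotone hab ha,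
      fun a ha b hb => ⟨a ⊓ b, by rw [mem_ofPred_eq, e.map_inf]; exact ⟨ha, hb⟩,
        inf_le_left, inf_le_right⟩⟩
    ⟨fun a b hab ha => e.monotone hab ha, fun D _ _ hD => by
      rw [mem_ofPred_eq, e.map_sSup_eq_sSup_symm_preimage, Opens.mem_sSup] at hD
      obtain ⟨U, hU, hxU⟩ := hD
      exact ⟨e.symm U, hU, by simpa using hxU⟩⟩ with h | h
  · exact hc2 (h.le hx)
  · have : x ∈ e ⊥ := h.ge (mem_univ ⊥)
    rw [e.map_bot] at this
    exact this

end Pool.Agent.Results.MP_f10132_gt.NonSpatial
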